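import Pool.Agent.H87.PC.Targets
import Pool.Agent.H85.RF.BD
import Pool.Agent.H97.PC.LBu

/-!
# Row BDP of the board `sfp_modules`: pair sums above a stable block, index prime to `ℓ`
-/

set_option autoImplicit false

open scoped Classical ComplexConjugate

namespace Pool.Agent.H97.PC

open AMc AMe AMt AMs AMr AMpc
open Pool.Agent.H85.RF (ta tb ta_eq tb_eq group_sum)

theorem nm_of {Γ : Type} [Group Γ] {K H : Subgroup Γ} (h : NIn K H) {u : Γ} (hu : u ∈ H) :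
    Nm u K := by
  intro g
  constructor
  · intro hg
    have := h.nor u⁻¹ (H.inv_mem hu) _ hg
    have e : u⁻¹ * (u * g * u⁻¹) * u⁻¹⁻¹ = g := by group
    rwa [e] at this
  · intro hg
    exact h.nor u hu g hg

theorem pf_BDP (h1 : T_PLP) (hCLQ : T_CLQ) : T_BDP := by
  intro ℓ _ 𝔪 𝓒 F _ _ π hstd Γ _ _ K U D Z ν hKU hidx hZK hZU x y hxU hyU hxN hyN hxy hxe hye
    hD hPx χ hχ hdef hsta ψ hψ hcor
  have h2 : AMr.T_LB := Pool.Agent.H97.PC.pf_LB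
  have hDU0 : Inc 𝓒 U D := by
    refine (((hCLQ ℓ 𝓒 Γ).1 hstd.c0).ext U K D hdef.2.1 hKU.le hKU.nor hdef.1 hidx ?_) hD
    intro u hu
    exact Pool.Agent.H77.EA.All.fDG F π hstd.sur ℓ Γ K D u (nm_of hKU hu) χ hχ hdef
      (hsta u hu)
  have hST := Pool.Agent.H77.EA.All.fST F π hstd.sur ℓ Γ
  have hUD := Pool.Agent.H77.EA.All.fUD F π hstd.sur ℓ Γ U K D hKU.le hKU.nor χ hχ hdef hsta ψ hψ
    hcor
  obtain ⟨hsta', hcov⟩ := hUD
  obtain ⟨-, hSTK⟩ := (hST K D).1 χ hχ hdef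
  obtain ⟨hdef', -, -⟩ := hSTK ψ hψ hcor
  have hDK : D ≤ K := hdef.2.1
  have hDp : IsPGroup ℓ D := hdef.1
  have hDU : D ≤ U := hDK.trans hKU.le
  have hZN : Z ≤ Subgroup.normalizer (D : Set Γ) := by
    intro z hz
    rw [Subgroup.mem_normalizer_iff]
    intro d
    constructor
    · intro hd
      have h3 : z * d * z⁻¹ = d := by rw [hZU z hz d (hDU hd), mul_inv_cancel_right]
      rw [h3]
      exact hd
    · intro hd
      have h3 : z * (z * d * z⁻¹) = z * d * z⁻¹ * z := hZU z hz _ (hDU hd)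
      have h4 : d = z * d * z⁻¹ := by
        have h5 : z * d * z⁻¹ * z = z * d := by group
        rw [h5] at h3
        exact (mul_left_cancel h3).symm
      rw [h4]
      exact hd
  have hKU' : NIn (K ⊓ Subgroup.normalizer (D : Set Γ)) (U ⊓ Subgroup.normalizer (D : Set Γ)) :=
    ⟨inf_le_inf_right _ hKU.le, fun u hu g hg =>
      ⟨hKU.nor u hu.1 g hg.1, Subgroup.mul_mem _ (Subgroup.mul_mem _ hu.2 hg.2)
        (Subgroup.inv_mem _ hu.2)⟩⟩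
  have hidx' : ¬ ℓ ∣ (K ⊓ Subgroup.normalizer (D : Set Γ)).relIndex
      (U ⊓ Subgroup.normalizer (D : Set Γ)) := by
    intro hdv
    apply hidx
    have hnorm : (K.subgroupOf U).Normal := by
      constructor
      intro n hn g
      rw [Subgroup.mem_subgroupOf] at hn ⊢
      have := hKU.nor g g.2 n hn
      simpa using this
    have h3 : (K ⊓ Subgroup.normalizer (D : Set Γ)).relIndex
        (U ⊓ Subgroup.normalizer (D : Set Γ)) ∣ K.relIndex U := by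
      have h4 : (K ⊓ Subgroup.normalizer (D : Set Γ)).relIndex
          (U ⊓ Subgroup.normalizer (D : Set Γ)) =
          K.relIndex (U ⊓ Subgroup.normalizer (D : Set Γ)) := by
        rw [← Subgroup.inf_relIndex_right (K ⊓ Subgroup.normalizer (D : Set Γ)),
          ← Subgroup.inf_relIndex_right K]
        congr 1
        ext g
        simp only [Subgroup.mem_inf]
        tauto
      rw [h4]
      have h5 := Subgroup.relIndex_dvd_index_of_normal (K.subgroupOf U)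
        ((U ⊓ Subgroup.normalizer (D : Set Γ)).subgroupOf U)
      rw [Subgroup.relIndex_subgroupOf inf_le_left] at h5
      exact h5
    exact hdv.trans h3
  have hfin : ∀ (V : Subgroup Γ) (S : Set (Γ → ℂ)), (∀ a ∈ S, a ∈ IrrS V) → S.Finite := by
    intro V S hS
    obtain ⟨fs, hfs, -⟩ := Pool.Agent.H77.EA.All.fS9 Γ V
    exact fs.finite_toSet.subset fun a ha => (hfs a).2 (hS a ha)
  -- the key step
  have key : ∀ ξ ∈ IrrS U, ∀ η ∈ IrrS (U ⊓ Subgroup.normalizer (D : Set Γ)), Cor π U D ξ η →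
      (∃ θ₁ ∈ IrrS K, Over ξ θ₁ ∧ Blk π K χ θ₁) → DefH ℓ U (lam π ξ) D →
      Blk π U ξ (cj x ξ) → Blk π U ξ (cj y ξ) →
      ∑ᶠ a ∈ {a | a ∈ {a | a ∈ Abv U (K0N π ℓ K χ D Z ν) ∧ cj x a = a ∧ cj y a = a} ∧
        ta π U a = ta π U ξ}, kp U a x y =
      ∑ᶠ a ∈ {a | a ∈ {a | a ∈ Abv (U ⊓ Subgroup.normalizer (D : Set Γ))
        (K0N π ℓ (K ⊓ Subgroup.normalizer (D : Set Γ)) ψ D Z ν) ∧ cj x a = a ∧ cj y a = a} ∧
        tb π U D a = ta π U ξ}, kp (U ⊓ Subgroup.normalizer (D : Set Γ)) a x y := by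
    intro ξ hξ η hη hc hth hdξ hbx hby
    obtain ⟨ψ₁, hψ₁, hov, hbl⟩ := (hcov ξ hξ η hη hc).1 hth
    obtain ⟨θ₁, hθ₁, hov₁, hbl₁⟩ := hth
    obtain ⟨-, hL⟩ := h2 F π hstd.sur ℓ Γ K U D Z ν hKU hidx hZK hZU χ hχ hdef hsta ξ hξ θ₁ hθ₁
      hov₁ hbl₁
    obtain ⟨-, hR⟩ := h2 F π hstd.sur ℓ Γ (K ⊓ Subgroup.normalizer (D : Set Γ))
      (U ⊓ Subgroup.normalizer (D : Set Γ)) D Z ν hKU' hidx' (le_inf hZK hZN)
      (fun z hz u hu => hZU z hz u hu.1) ψ hψ hdef' hsta' η hη ψ₁ hψ₁ hov hbl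
    obtain ⟨-, huniq, -⟩ := ((hST U D).1 ξ hξ hdξ).2 η hη hc
    have hPL := h1 ℓ 𝔪 𝓒 F π hstd Γ U D Z ν x y hxU hyU hxN hyN hxy hxe hye hDU0 hPx
      (hZK.trans hKU.le) hZU ξ hξ hdξ hbx hby η hη hc
    unfold PS at hPL
    have e1 : {a | a ∈ {a | a ∈ Abv U (K0N π ℓ K χ D Z ν) ∧ cj x a = a ∧ cj y a = a} ∧
        ta π U a = ta π U ξ} = {a | a ∈ K0N π ℓ U ξ D Z ν ∧ cj x a = a ∧ cj y a = a} := by
      ext a
      simp only [Set.mem_ofPred_eq]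
      rw [hL a, ta_eq]
      tauto
    have e2 : {a | a ∈ {a | a ∈ Abv (U ⊓ Subgroup.normalizer (D : Set Γ))
        (K0N π ℓ (K ⊓ Subgroup.normalizer (D : Set Γ)) ψ D Z ν) ∧ cj x a = a ∧ cj y a = a} ∧
        tb π U D a = ta π U ξ} = {a | a ∈ K0N π ℓ (U ⊓ Subgroup.normalizer (D : Set Γ)) η D Z ν ∧
          cj x a = a ∧ cj y a = a} := by
      ext a
      simp only [Set.mem_ofPred_eq]
      rw [hR a, tb_eq]
      constructor
      · rintro ⟨⟨a1, a2⟩, a3⟩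
        exact ⟨⟨a1, (huniq a a1.1).1 a3⟩, a2⟩
      · rintro ⟨⟨a1, a3⟩, a2⟩
        exact ⟨⟨a1, a2⟩, (huniq a a1.1).2 a3⟩
    rw [e1, e2]
    exact hPL
  have hrefl : ∀ (V : Subgroup Γ) (a : Γ → ℂ), Blk π V a a := fun V a z _ => rfl
  refine group_sum _ _ (hfin U _ fun a ha => ha.1.1)
    (hfin (U ⊓ Subgroup.normalizer (D : Set Γ)) _ fun a ha => ha.1.1) (ta π U) (tb π U D) _ _ ?_
  rintro t₀ (⟨ξ, hξ, rfl⟩ | ⟨η, hη, rfl⟩)
  · obtain ⟨⟨hξU, θ, hθ, hov⟩, hx1, hy1⟩ := hξ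
    have hθK : θ ∈ IrrS K := hθ.1.1
    have hθB : Blk π K χ θ := hθ.1.2.1
    obtain ⟨hdξ, -⟩ := h2 F π hstd.sur ℓ Γ K U D Z ν hKU hidx hZK hZU χ hχ hdef hsta ξ hξU θ hθK
      hov hθB
    obtain ⟨⟨η, hη, hc⟩, -⟩ := (hST U D).1 ξ hξU hdξ
    exact key ξ hξU η hη hc ⟨θ, hθK, hov, hθB⟩ hdξ (by rw [hx1]; exact hrefl _ _)
      (by rw [hy1]; exact hrefl _ _)
  · obtain ⟨⟨hηU, θ, hθ, hov⟩, hx1, hy1⟩ := hη
    obtain ⟨ξ, hξ, hc⟩ := (hST U D).2 hDp hDU η hηU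
    obtain ⟨θ₁, hθ₁, hov₁, hbl₁⟩ := (hcov ξ hξ η hηU hc).2 ⟨θ, hθ.1.1, hov, hθ.1.2.1⟩
    obtain ⟨hdξ, -⟩ := h2 F π hstd.sur ℓ Γ K U D Z ν hKU hidx hZK hZU χ hχ hdef hsta ξ hξ θ₁ hθ₁
      hov₁ hbl₁
    obtain ⟨-, -, heq⟩ := ((hST U D).1 ξ hξ hdξ).2 η hηU hc
    rw [(tb_eq π).2 hc]
    exact key ξ hξ η hηU hc ⟨θ₁, hθ₁, hov₁, hbl₁⟩ hdξ
      ((heq x hxN hxU).2 (by rw [hx1]; exact hrefl _ _))
      ((heq y hyN hyU).2 (by rw [hy1]; exact hrefl _ _))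

end Pool.Agent.H97.PC
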